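import Pool.Agent.W662.SK.StmtsA
import Pool.Agent.W662.SK.Basic

set_option autoImplicit false

open scoped InnerProductSpace ENNReal

namespace Pool.Agent.W701.SK

open Pool.Agent.W662.SK

noncomputable section

lemma lt_ne_one (p : Fin 3 × Bool) : lt p ≠ 1 := by
  intro h
  have h2 := congrArg FreeGroup.toWord h
  rw [lt, FreeGroup.toWord_mk, FreeGroup.toWord_one] at h2
  simp at h2

lemma norm_sub_ge_re (a b : ℂ) (ε : ℝ) (h : ‖a - b‖ < ε) : a.re - ε < b.re := by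
  have h1 := Complex.abs_re_le_norm (a - b)
  rw [Complex.sub_re] at h1
  have h2 := le_abs_self (a.re - b.re)
  linarith

lemma re_lt_of (a b : ℂ) (ε : ℝ) (h : ‖a - b‖ < ε) : b.re < a.re + ε := by
  have h1 := Complex.abs_re_le_norm (a - b)
  rw [Complex.sub_re] at h1
  have h2 := neg_abs_le (a.re - b.re)
  linarith

theorem a9 (h3 : S_A3) (h : S_A9a) : S_A9 := by
  intro hW
  classical
  obtain ⟨E, i1, i2, i3, η, hη⟩ := hW 1 (fun _ => dl 1)
    (insert 1 (Finset.univ.image lt)) (1 / 100) (by norm_num)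
  have key := h E (η 0)
  have h1 := hη 1 (Finset.mem_insert_self _ _) 0 0
  rw [map_one, Lam_one] at h1
  have e1 : ⟪dl 1, (1 : K0 ≃ₗᵢ[ℂ] K0) (dl 1)⟫_ℂ = 1 := by
    change ⟪dl 1, dl 1⟫_ℂ = 1
    rw [inner_dl, dl_apply_self]
  have e2 : (⟪η 0, (1 : L2 G3 E ≃ₗᵢ[ℂ] L2 G3 E) (η 0)⟫_ℂ).re = ‖η 0‖ ^ 2 := by
    change (⟪η 0, η 0⟫_ℂ).re = ‖η 0‖ ^ 2
    rw [inner_self_eq_norm_sq_to_K]
    norm_cast
  have h1' := re_lt_of _ _ _ h1
  rw [e1, e2] at h1'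
  have h2 : ∀ p : Fin 3 × Bool, (9 / 10 - 1 / 100 : ℝ) ≤ (⟪η 0, Lam E (lt p) (η 0)⟫_ℂ).re := by
    intro p
    have hp := hη (lt p) (Finset.mem_insert_of_mem (Finset.mem_image_of_mem _ (Finset.mem_univ p))) 0 0
    have hp' := norm_sub_ge_re _ _ _ hp
    have e3 : ⟪dl 1, rp (9 / 10) (lt p) (dl 1)⟫_ℂ = ((9 / 10 : ℝ) : ℂ) := by
      rw [(h3 (9 / 10) (by norm_num) (by norm_num) p).1, inner_dl, l2_add_apply, l2_smul_apply,
        l2_smul_apply, dl_apply_self, dl_apply_ne (lt_ne_one p).symm]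
      simp
    rw [e3, Complex.ofReal_re] at hp'
    exact hp'.le
  have h4 : (6 : ℝ) * (9 / 10 - 1 / 100) ≤ (∑ p : Fin 3 × Bool, ⟪η 0, Lam E (lt p) (η 0)⟫_ℂ).re := by
    rw [Complex.re_sum]
    calc (6 : ℝ) * (9 / 10 - 1 / 100) = ∑ _p : Fin 3 × Bool, (9 / 10 - 1 / 100 : ℝ) := by
          simp
          norm_num
      _ ≤ _ := Finset.sum_le_sum fun p _ => h2 p
  simp only [Complex.one_re] at h1'
  nlinarith [key, h4, h1']

end
end Pool.Agent.W701.SK
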